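import Pool.Agent.Rad.Chain
import Pool.Agent.Rad.Radical

/-!
# Reset words of automata with a chain of congruences

`δ : Q → A → Q` is a synchronizing automaton with `n = card Q` states and `θ 0 = ⊥ ≤ … ≤ θ h = ⊤` is a
chain of congruences.  The bound `(n ^ 3 - n) / 6` of Pin and Frankl holds locally: there is a reset
word of length at most the sum, over all classes `B` of `θ 1, …, θ h`, of `(k ^ 3 - k) / 6`, where `k`
is the number of classes of the previous congruence in `B`.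
-/

set_option autoImplicit false

namespace Pool.Agent.Results.MP_308117_lc.CongruenceSections

open Pool.Agent.Rad

theorem result {Q A : Type*} [Fintype Q] {δ : Q → A → Q} (hs : ∃ w, IsReset δ w) (h : ℕ)
    (θ : ℕ → Setoid Q) (h0 : θ 0 = ⊥) (hh : θ h = ⊤) (hle : ∀ i < h, θ i ≤ θ (i + 1))
    (hc : ∀ i ≤ h, IsCong δ (θ i)) :
    (∃ w, IsReset δ w ∧ IsRadical δ w ∧ w.length ≤ ∑ i ∈ Finset.range h,
      ∑ᶠ B : Quotient (θ (i + 1)), (parts (θ i) (θ (i + 1)) B + 1).choose 3) ∧
    ∀ K : ℕ, (∀ i < h, ∀ B, parts (θ i) (θ (i + 1)) B ≤ K) →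
      ∃ w, IsReset δ w ∧ IsRadical δ w ∧
        6 * w.length ≤ K * (K + 1) * (Fintype.card Q - 1) ∧
        (K * (K + 1) ≤ 6 * (Fintype.card Q - 1) → w.length ≤ (Fintype.card Q - 1) ^ 2) := by
  refine ⟨?_, ?_⟩
  · obtain ⟨w, hw, hlen⟩ := chain hs h θ h0 hh hle hc
    exact ⟨w, hw, isRadical_of_isReset hw, hlen⟩
  · intro K hK
    obtain ⟨w, hw, hlen⟩ := chain_width hs h θ h0 hh hle hc K hK
    refine ⟨w, hw, isRadical_of_isReset hw, hlen, ?_⟩
    intro hKn
    have h1 := hlen.trans (Nat.mul_le_mul_right (Fintype.card Q - 1) hKn)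
    have h2 : 6 * (Fintype.card Q - 1) * (Fintype.card Q - 1) = 6 * (Fintype.card Q - 1) ^ 2 := by
      ring
    rw [h2] at h1
    exact Nat.le_of_mul_le_mul_left h1 (by norm_num)

end Pool.Agent.Results.MP_308117_lc.CongruenceSections
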