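import Pool.Agent.Rad2.Intrans

/-!
# Radical words and intransitive classes

`δ : Q → A → Q` is a synchronizing automaton with `n = card Q` states and `w` a word (for example the
empty word, which divides all words).  Suppose that every minimal idempotent `e` which `w` divides,
with image `L` and `s = card L`, satisfies one of the following.

* `1 ≤ C (s - 1)`, and the words `v` with `L.v = L` do not act transitively on `L` or some state
  reachable from `L` lies in no set `L.v` where `v` can be undone on `L`;
* at most `C (n - 1) s (s - 1) ^ 2` ordered pairs of different states lie in such a set `L.v`.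

Then some word `w u` with `u` of length at most `C (n - 1) ^ 2` is radical.
-/

set_option autoImplicit false

namespace Pool.Agent.Results.MP_308117_lc.IntransitiveClasses

open Pool.Agent.Rad Pool.Agent.Rad2

theorem result {Q A : Type*} [Fintype Q] (δ : Q → A → Q) (hs : ∃ w, IsReset δ w) (C : ℝ)
    (hC : 0 ≤ C) (w : List A)
    (h : ∀ e, MinIdem δ e → Divides δ w e →
      (¬ (Transitive δ (img δ e) ∧ Covers δ (img δ e)) ∧ 1 ≤ C * ((img δ e).ncard - 1)) ∨
      ((pairs δ (img δ e)).ncard : ℝ) ≤
        C * (Fintype.card Q - 1) * ((img δ e).ncard * ((img δ e).ncard - 1) ^ 2)) :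
    ∃ u, IsRadical δ (w ++ u) ∧ (u.length : ℝ) ≤ C * (Fintype.card Q - 1) ^ 2 :=
  intrans_bound hs C hC w h

end Pool.Agent.Results.MP_308117_lc.IntransitiveClasses
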