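import Pool.Agent.Rad.Comp

/-!
# Radical words and the components of the pair automaton

`δ : Q → A → Q` is a synchronizing automaton with `n = card Q` states and `X` a set of unordered pairs
of different states which is stable (every letter maps a pair of `X` to a pair of `X` or merges it)
and connected as a graph on `Q`, for example the set of all pairs.  If the strongly connected
components of `X` have at most `c` elements then there is a radical word of length at most
`c (n - 1)`.  The tool is `radical_iff`: a word `u` of any automaton is radical if and only if no
word with prefix `u` fixes two different states.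
-/

set_option autoImplicit false

namespace Pool.Agent.Results.MP_308117_lc.PairComponents

open Pool.Agent.Rad

/-- The criterion for radical words. -/
theorem radical_iff {Q A : Type*} [Fintype Q] (δ : Q → A → Q) (u : List A) :
    IsRadical δ u ↔ ∀ w p q, run δ p (u ++ w) = p → run δ q (u ++ w) = q → p = q :=
  isRadical_iff δ u

theorem result {Q A : Type*} [Fintype Q] (δ : Q → A → Q) (hs : ∃ w, IsReset δ w)
    (X : Set (Sym2 Q)) (hX : Stable δ X)
    (hconn : ∀ p q, Relation.EqvGen (fun p q => s(p, q) ∈ X) p q)
    (c : ℕ) (hc : ∀ z ∈ X, (comp δ z).ncard ≤ c) :
    ∃ u, IsRadical δ u ∧ u.length ≤ c * (Fintype.card Q - 1) :=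
  comp_bound hs hX hconn c hc

end Pool.Agent.Results.MP_308117_lc.PairComponents
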