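import Pool.Agent.Rad2.Cor

/-!
# Radical words and sections of the representation

`δ : Q → A → Q` is a synchronizing automaton with `n = card Q` states, `K` a field, `V` the space of
the vectors of `K^Q` with sum `0` and `w` a word (for example the empty word, which divides all
words).  If every minimal idempotent `e` which `w` divides, of rank `s`, acts with rank `k > 0` on some
section `U' / U` of `V` with `dim U' / U ≤ C s (s - 1) k`, then some word `w u` with `u` of length at
most `C n (n - 1)` is radical.
-/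

set_option autoImplicit false

namespace Pool.Agent.Results.MP_308117_lc.SectionRank

open Pool.Agent.Rad Pool.Agent.Rad2

/-- If the letters can be put in block triangular form on `V` with blocks of size at most `d` and all
minimal idempotents which `w` divides have rank at least `r`, then some word `w u` with
`|u| ≤ d n (n - 1) / (r (r - 1))` is radical. -/
theorem blocks {Q A K : Type*} [Fintype Q] [Field K] (δ : Q → A → Q) (hs : ∃ w, IsReset δ w)
    (r d : ℕ) (hr : 2 ≤ r) (w : List A)
    (h : ∀ e, MinIdem δ e → Divides δ w e → r ≤ (img δ e).ncard) (m : ℕ)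
    (U : ℕ → Submodule K (Q → K)) (h0 : U 0 = ⊥) (hm : U m = V K Q) (hU : ∀ i ≤ m, Inv δ (U i))
    (hle : ∀ i < m, U i ≤ U (i + 1))
    (hd : ∀ i < m, Module.finrank K (U (i + 1)) ≤ Module.finrank K (U i) + d) :
    ∃ u, IsRadical δ (w ++ u) ∧ u.length * (r * (r - 1)) ≤
      d * (Fintype.card Q * (Fintype.card Q - 1)) :=
  block_bound hs r d hr w h m U h0 hm hU hle hd

/-- If all minimal idempotents which `w` divides have rank at least `r`, then some word `w u` with
`|u| ≤ n (n - 1) ^ 2 / (r (r - 1) ^ 2)` is radical. -/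
theorem wide {Q A : Type*} [Fintype Q] (δ : Q → A → Q) (hs : ∃ w, IsReset δ w) (r : ℕ)
    (hr : 2 ≤ r) (w : List A) (h : ∀ e, MinIdem δ e → Divides δ w e → r ≤ (img δ e).ncard) :
    ∃ u, IsRadical δ (w ++ u) ∧ u.length * (r * (r - 1) ^ 2) ≤
      Fintype.card Q * (Fintype.card Q - 1) ^ 2 :=
  wide_bound hs r hr w h

theorem result {Q A K : Type*} [Fintype Q] [Field K] (δ : Q → A → Q) (hs : ∃ w, IsReset δ w)
    (C : ℝ) (hC : 0 ≤ C) (w : List A)
    (h : ∀ e, MinIdem δ e → Divides δ w e → ∃ U U' : Submodule K (Q → K), Inv δ U ∧ Inv δ U' ∧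
      U ≤ U' ∧ U' ≤ V K Q ∧ 0 < rank δ U U' e ∧
      (Module.finrank K U' : ℝ) - Module.finrank K U ≤
        C * ((img δ e).ncard * ((img δ e).ncard - 1)) * rank δ U U' e) :
    ∃ u, IsRadical δ (w ++ u) ∧
      (u.length : ℝ) ≤ C * (Fintype.card Q * (Fintype.card Q - 1)) :=
  section_bound hs C hC w h

end Pool.Agent.Results.MP_308117_lc.SectionRank
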